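import Pool.Agent.H242.GX.Stm2

/-!
# GX-UNQ (helper668 for helper242): formal uniqueness for webs
-/

set_option autoImplicit false

open Set Filter Topology
open scoped ContDiff

namespace Pool.Agent.H668.GX.UNQ

open Pool.Agent.H242.GX

theorem ext_zero (f g : ℝ → ℝ) (hf : Continuous f) (hg : Continuous g)
    (h : ∀ y : ℝ, y ≠ 0 → f y = g y) : f 0 = g 0 := by
  have h1 : f = g := Continuous.ext_on (dense_compl_singleton (0 : ℝ)) hf hg (fun y hy => h y hy)
  rw [h1]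

/-- Hadamard's lemma with periodicity -/
theorem had_per (hHAD : S_HAD) (F : ℝ × ℝ → ℝ) (hF : ContDiff ℝ ∞ F)
    (h0 : ∀ φ : ℝ, F (φ, 0) = 0) (hper : ∀ φ y : ℝ, F (φ + 2 * Real.pi, y) = F (φ, y)) :
    ∃ G : ℝ × ℝ → ℝ, ContDiff ℝ ∞ G ∧ (∀ φ y : ℝ, G (φ + 2 * Real.pi, y) = G (φ, y)) ∧
      ∀ φ y : ℝ, F (φ, y) = y * G (φ, y) := by
  obtain ⟨G, hG, hFG⟩ := hHAD F hF h0
  have h1 : ∀ φ y : ℝ, y ≠ 0 → G (φ + 2 * Real.pi, y) = G (φ, y) := by
    intro φ y hy
    have h2 := hper φ y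
    rw [hFG, hFG] at h2
    exact mul_left_cancel₀ hy h2
  refine ⟨G, hG, fun φ y => ?_, hFG⟩
  by_cases hy : y = 0
  · subst hy
    exact ext_zero (fun y => G (φ + 2 * Real.pi, y)) (fun y => G (φ, y))
      (hG.continuous.comp (by fun_prop)) (hG.continuous.comp (by fun_prop)) (h1 φ)
  · exact h1 φ y hy

/-- the derivative of `y * G` at `0` -/
theorem deriv_mul_zero (F G : ℝ × ℝ → ℝ) (hG : ContDiff ℝ ∞ G)
    (h : ∀ φ y : ℝ, F (φ, y) = y * G (φ, y)) (φ : ℝ) :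
    deriv (fun y => F (φ, y)) 0 = G (φ, 0) := by
  have h1 : (fun y => F (φ, y)) = fun y => y * G (φ, y) := funext fun y => h φ y
  have h2 : ContDiff ℝ ∞ (fun y : ℝ => G (φ, y)) := hG.comp (by fun_prop)
  have h3 : HasDerivAt (fun y : ℝ => G (φ, y)) (deriv (fun y : ℝ => G (φ, y)) 0) 0 :=
    ((h2.differentiable (by simp)) 0).hasDerivAt
  have h4 := (hasDerivAt_id (0 : ℝ)).mul h3
  rw [h1]
  have h5 := h4.deriv
  simp only [id] at h5
  rw [show (fun y : ℝ => y * G (φ, y)) = (id * fun y : ℝ => G (φ, y)) from rfl, h4.deriv]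
  simp

/-- the leading order of an even function -/
theorem lead (hLIN : S_LIN) (hHAD : S_HAD) (X Z : ℝ × ℝ → ℝ × ℝ) (hX : Web X Z) (n : ℕ)
    (hn : 1 ≤ n) (R : ℝ × ℝ → ℝ) (hR : ContDiff ℝ ∞ R)
    (hper : ∀ φ y : ℝ, R (φ + 2 * Real.pi, y) = R (φ, y))
    (hev : ∀ θ : ℝ, ∃ r : ℝ, 0 < r ∧ ∀ t : ℝ, |t| < r → Odd X (fun x => x.2 ^ n * R x) θ t = 0)
    (θ : ℝ) :
    deriv (fun t => (X (θ, t)).2) 0 * deriv (fun t => (X (θ, t)).1) 0 *
        deriv (fun φ => R (φ, 0)) θ +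
      n * deriv (deriv (fun t => (X (θ, t)).2)) 0 * R (θ, 0) = 0 := by
  set w : ℝ → ℝ := fun φ => R (φ, 0) with hw
  have hwPP : PP w := ⟨hR.comp (by fun_prop), fun φ => hper φ 0⟩
  obtain ⟨s, hs, hs1, -, hs3⟩ := hLIN X Z hX n hn w hwPP
  -- the remainder of `R`
  obtain ⟨R', hR', hRR⟩ := hHAD (fun x => R x - w x.1)
    (hR.sub (hwPP.smooth.comp contDiff_fst)) (fun φ => by simp [hw])
  -- the second coordinate of the web
  obtain ⟨r₁, hr₁, hXr⟩ := hHAD (fun x => (X x).2) (contDiff_snd.comp hX.smX) (fun φ => by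
    show (X (φ, 0)).2 = 0
    rw [hX.axis])
  have hXr' : ∀ θ t : ℝ, (X (θ, t)).2 = t * r₁ (θ, t) := hXr
  have hRR' : ∀ φ y : ℝ, R (φ, y) = w φ + y * R' (φ, y) := by
    intro φ y
    have := hRR φ y
    simp only at this
    linarith
  set q : ℝ → ℝ := fun t => r₁ (θ, t) ^ (2 * n + 2) * R' ((X (θ, t)).1, (X (θ, t)).2 ^ 2) with hq
  have hqc : Continuous q := by
    have c1 : Continuous (fun t : ℝ => r₁ (θ, t)) := hr₁.continuous.comp (by fun_prop)
    have c2 : Continuous (fun t : ℝ => X (θ, t)) := hX.smX.continuous.comp (by fun_prop)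
    have c3 : Continuous (fun t : ℝ => R' ((X (θ, t)).1, (X (θ, t)).2 ^ 2)) :=
      hR'.continuous.comp ((continuous_fst.comp c2).prodMk ((continuous_snd.comp c2).pow 2))
    exact (c1.pow _).mul c3
  have hdec : ∀ t : ℝ, Odd X (fun x => x.2 ^ n * R x) θ t =
      t ^ (2 * n + 1) * s (θ, t) + t ^ (2 * n + 2) * (q t - q (-t)) := by
    intro t
    rw [← hs1 θ t]
    have e1 : ∀ t : ℝ, ((X (θ, t)).2 ^ 2) ^ n * R ((X (θ, t)).1, (X (θ, t)).2 ^ 2) =
        ((X (θ, t)).2 ^ 2) ^ n * w (X (θ, t)).1 + t ^ (2 * n + 2) * q t := by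
      intro t
      rw [hRR']
      have e2 : ((X (θ, t)).2 ^ 2) ^ n * (X (θ, t)).2 ^ 2 = t ^ (2 * n + 2) * r₁ (θ, t) ^ (2 * n + 2) := by
        rw [hXr', ← pow_succ, ← pow_mul, ← mul_pow]
        rfl
      calc ((X (θ, t)).2 ^ 2) ^ n * (w (X (θ, t)).1 + (X (θ, t)).2 ^ 2 * R' ((X (θ, t)).1, (X (θ, t)).2 ^ 2))
          = ((X (θ, t)).2 ^ 2) ^ n * w (X (θ, t)).1 +
            (((X (θ, t)).2 ^ 2) ^ n * (X (θ, t)).2 ^ 2) * R' ((X (θ, t)).1, (X (θ, t)).2 ^ 2) := by ring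
        _ = _ := by rw [e2, hq]; ring
    have e3 : (-t) ^ (2 * n + 2) = t ^ (2 * n + 2) := by
      rw [show 2 * n + 2 = 2 * (n + 1) by ring, pow_mul, pow_mul, neg_sq]
    show ((X (θ, t)).2 ^ 2) ^ n * R ((X (θ, t)).1, (X (θ, t)).2 ^ 2) -
      ((X (θ, -t)).2 ^ 2) ^ n * R ((X (θ, -t)).1, (X (θ, -t)).2 ^ 2) =
      (((X (θ, t)).2 ^ 2) ^ n * w (X (θ, t)).1 - ((X (θ, -t)).2 ^ 2) ^ n * w (X (θ, -t)).1) + _
    rw [e1 t, e1 (-t), e3]
    ring
  obtain ⟨r, hr, hrz⟩ := hev θ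
  have hs0 : s (θ, 0) = 0 := by
    -- `s (θ, t) + t (q t - q (-t)) = 0` for small `t ≠ 0`
    have hc : Continuous (fun t : ℝ => s (θ, t) + t * (q t - q (-t))) := by
      have c1 : Continuous (fun t : ℝ => s (θ, t)) := hs.continuous.comp (by fun_prop)
      have c2 : Continuous (fun t : ℝ => q (-t)) := hqc.comp continuous_neg
      exact c1.add (continuous_id.mul (hqc.sub c2))
    have h1 : Tendsto (fun t : ℝ => s (θ, t) + t * (q t - q (-t))) (𝓝[≠] 0)
        (𝓝 (s (θ, 0) + 0 * (q 0 - q (-0)))) := (hc.tendsto 0).mono_left nhdsWithin_le_nhds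
    have h2 : Tendsto (fun t : ℝ => s (θ, t) + t * (q t - q (-t))) (𝓝[≠] 0) (𝓝 0) := by
      refine Tendsto.congr' ?_ tendsto_const_nhds
      have h3 : ∀ᶠ t : ℝ in 𝓝[≠] 0, |t| < r := by
        have h4 : Iio r ∈ 𝓝 |(0 : ℝ)| := by rw [abs_zero]; exact Iio_mem_nhds hr
        exact nhdsWithin_le_nhds (continuous_abs.continuousAt h4)
      filter_upwards [h3, self_mem_nhdsWithin] with t ht ht0
      have ht0' : t ≠ 0 := ht0
      have h5 := hrz t ht
      rw [hdec t] at h5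
      have h6 : t ^ (2 * n + 1) * (s (θ, t) + t * (q t - q (-t))) = 0 := by
        rw [← h5]; ring
      rcases mul_eq_zero.1 h6 with h7 | h7
      · exact absurd h7 (pow_ne_zero _ ht0')
      · exact h7.symm
    have h3 := tendsto_nhds_unique h1 h2
    rwa [zero_mul, add_zero] at h3
  have hs0' := hs3 θ
  rw [hs0] at hs0'
  have hb := hX.der2 θ
  set b := deriv (fun t => (X (θ, t)).2) 0 with hbdef
  set a := deriv (fun t => (X (θ, t)).1) 0 with hadef
  set b₂ := deriv (deriv (fun t => (X (θ, t)).2)) 0 with hb₂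
  have e : b ^ (2 * n) = b ^ (2 * n - 1) * b := by
    rw [← pow_succ]
    congr 1
    omega
  rw [e] at hs0'
  have h7 : (2 * b ^ (2 * n - 1)) * (b * a * deriv w θ + n * b₂ * w θ) = 0 := by
    linarith
  rcases mul_eq_zero.1 h7 with h8 | h8
  · exact absurd h8 (by positivity)
  · exact h8

theorem gx_UNQ (hLIN : S_LIN) (hHAD : S_HAD) : S_UNQ := by
  intro X Z hX H₁ H₂ hH₁ hH₂ hp₁ hp₂ h01 h02 hpos hev₁ hev₂ N
  obtain ⟨K, hK, hKper, hHK⟩ := had_per hHAD H₁ hH₁ h01 hp₁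
  have hKpos : ∀ φ : ℝ, 0 < K (φ, 0) := by
    intro φ
    have := hpos φ
    rwa [deriv_mul_zero H₁ K hK hHK φ] at this
  have hu := fun θ => lead hLIN hHAD X Z hX 1 le_rfl K hK hKper (by
    intro θ
    obtain ⟨r, hr, h⟩ := hev₁ θ
    refine ⟨r, hr, fun t ht => ?_⟩
    have h' := h t ht
    have e : (fun x : ℝ × ℝ => x.2 ^ 1 * K x) = H₁ := by
      funext x
      rw [pow_one]
      exact (hHK x.1 x.2).symm
    rw [e]
    exact h') θ
  rcases Nat.eq_zero_or_pos N with rfl | hN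
  · exact ⟨0, H₂, hH₂, hp₂, fun φ y => by simp⟩
  induction N, hN using Nat.le_induction with
  | base =>
    obtain ⟨R, hR, hRper, hHR⟩ := had_per hHAD H₂ hH₂ h02 hp₂
    exact ⟨0, R, hR, hRper, fun φ y => by rw [hHR]; simp⟩
  | succ N hN ih =>
    obtain ⟨f, R, hR, hRper, hf⟩ := ih
    have hw := fun θ => lead hLIN hHAD X Z hX N hN R hR hRper (by
      intro θ
      obtain ⟨r, hr, h⟩ := hev₁ θ
      obtain ⟨r', hr', h'⟩ := hev₂ θ
      refine ⟨min r r', lt_min hr hr', fun t ht => ?_⟩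
      have e : (fun x : ℝ × ℝ => x.2 ^ N * R x) = fun x => H₂ x - f.eval (H₁ x) := by
        funext x
        have := hf x.1 x.2
        show x.2 ^ N * R (x.1, x.2) = H₂ (x.1, x.2) - f.eval (H₁ (x.1, x.2))
        linarith
      rw [e]
      have h1 := h t (lt_of_lt_of_le ht (min_le_left _ _))
      have h2 := h' t (lt_of_lt_of_le ht (min_le_right _ _))
      have h1' : H₁ ((X (θ, t)).1, (X (θ, t)).2 ^ 2) - H₁ ((X (θ, -t)).1, (X (θ, -t)).2 ^ 2) = 0 := h1
      have h2' : H₂ ((X (θ, t)).1, (X (θ, t)).2 ^ 2) - H₂ ((X (θ, -t)).1, (X (θ, -t)).2 ^ 2) = 0 := h2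
      show (H₂ ((X (θ, t)).1, (X (θ, t)).2 ^ 2) - f.eval (H₁ ((X (θ, t)).1, (X (θ, t)).2 ^ 2))) -
        (H₂ ((X (θ, -t)).1, (X (θ, -t)).2 ^ 2) - f.eval (H₁ ((X (θ, -t)).1, (X (θ, -t)).2 ^ 2))) = 0
      rw [sub_eq_zero.1 h1', sub_eq_zero.1 h2', sub_self]) θ
    -- the quotient `w / u ^ N` is constant
    set w : ℝ → ℝ := fun φ => R (φ, 0) with hwdef
    set u : ℝ → ℝ := fun φ => K (φ, 0) with hudef
    have hwS : ContDiff ℝ ∞ w := hR.comp (by fun_prop)
    have huS : ContDiff ℝ ∞ u := hK.comp (by fun_prop)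
    have hupos : ∀ φ, 0 < u φ := hKpos
    have hwD : Differentiable ℝ w := hwS.differentiable (by simp)
    have huD : Differentiable ℝ u := huS.differentiable (by simp)
    have hwu : ∀ θ, deriv w θ * u θ = N * deriv u θ * w θ := by
      intro θ
      have h1 := hu θ
      have h2 := hw θ
      have ha := hX.der1 θ
      have hb := hX.der2 θ
      have h1' : deriv (fun t => (X (θ, t)).2) 0 * deriv (fun t => (X (θ, t)).1) 0 * deriv u θ +
        (1 : ℕ) * deriv (deriv (fun t => (X (θ, t)).2)) 0 * u θ = 0 := h1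
      have h2' : deriv (fun t => (X (θ, t)).2) 0 * deriv (fun t => (X (θ, t)).1) 0 * deriv w θ +
        N * deriv (deriv (fun t => (X (θ, t)).2)) 0 * w θ = 0 := h2
      rw [Nat.cast_one] at h1'
      set b := deriv (fun t => (X (θ, t)).2) 0
      set a := deriv (fun t => (X (θ, t)).1) 0
      set b₂ := deriv (deriv (fun t => (X (θ, t)).2)) 0
      have h3 : (b * a) * (deriv w θ * u θ - N * deriv u θ * w θ) = 0 := by
        have h4 : (b * a) * (deriv w θ * u θ - N * deriv u θ * w θ) =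
            (b * a * deriv w θ + N * b₂ * w θ) * u θ - N * w θ * (b * a * deriv u θ + 1 * b₂ * u θ) := by
          ring
        rw [h4, h1', h2']
        ring
      rcases mul_eq_zero.1 h3 with h4 | h4
      · exact absurd h4 (by positivity)
      · linarith
    have hder : ∀ θ, deriv (fun φ => w φ / u φ ^ N) θ = 0 := by
      intro θ
      have h1 : HasDerivAt (fun φ => w φ / u φ ^ N)
          ((deriv w θ * u θ ^ N - w θ * (N * u θ ^ (N - 1) * deriv u θ)) / (u θ ^ N) ^ 2) θ :=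
        (hwD θ).hasDerivAt.div ((huD θ).hasDerivAt.pow N) (pow_ne_zero _ (hupos θ).ne')
      rw [h1.deriv]
      have e : u θ ^ N = u θ ^ (N - 1) * u θ := by
        rw [← pow_succ]
        congr 1
        omega
      have h2 : deriv w θ * u θ ^ N - w θ * (N * u θ ^ (N - 1) * deriv u θ) = 0 := by
        rw [e]
        have := hwu θ
        linear_combination (u θ ^ (N - 1)) * this
      rw [h2, zero_div]
    have hconst : ∀ θ, w θ / u θ ^ N = w 0 / u 0 ^ N := fun θ =>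
      is_const_of_deriv_eq_zero (𝕜 := ℝ) (f := fun φ => w φ / u φ ^ N)
        (fun θ => (hwD θ).div ((huD θ).pow N) (pow_ne_zero _ (hupos θ).ne')) hder θ 0
    set κ : ℝ := w 0 / u 0 ^ N with hκ
    have hwκ : ∀ θ, w θ = κ * u θ ^ N := by
      intro θ
      have h1 := hconst θ
      rwa [div_eq_iff (pow_ne_zero _ (hupos θ).ne')] at h1
    obtain ⟨R', hR', hR'per, hRR⟩ := had_per hHAD (fun x => R x - κ * K x ^ N)
      (hR.sub (contDiff_const.mul (hK.pow N))) (fun φ => by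
        show R (φ, 0) - κ * K (φ, 0) ^ N = 0
        have := hwκ φ
        show w φ - κ * u φ ^ N = 0
        rw [this, sub_self]) (fun φ y => by
        show R (φ + 2 * Real.pi, y) - κ * K (φ + 2 * Real.pi, y) ^ N = R (φ, y) - κ * K (φ, y) ^ N
        rw [hRper, hKper])
    refine ⟨f + Polynomial.C κ * Polynomial.X ^ N, R', hR', hR'per, fun φ y => ?_⟩
    have h1 := hRR φ y
    have h1' : R (φ, y) - κ * K (φ, y) ^ N = y * R' (φ, y) := h1
    rw [hf φ y, Polynomial.eval_add, Polynomial.eval_mul, Polynomial.eval_C, Polynomial.eval_pow,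
      Polynomial.eval_X]
    have h2 : R (φ, y) = κ * K (φ, y) ^ N + y * R' (φ, y) := by linarith
    rw [h2, hHK φ y]
    ring

end Pool.Agent.H668.GX.UNQ
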